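import Mathlib
import Pool.Agent.H33.QB.Multi

/-!
# Convex progressions in `Z_N` and lattices with a homomorphism to `Z_N`
-/

set_option autoImplicit false

namespace H97CP

open Pool.Agent.H33.QB

/-- an integer vector as a real vector -/
def rv {d : ℕ} (z : Fin d → ℤ) : Fin d → ℝ := fun i => (z i : ℝ)

/-- the image under `φ` of the integer points of `S` -/
def progr {N d : ℕ} (φ : (Fin d → ℤ) →+ ZMod N) (S : Set (Fin d → ℝ)) : Set (ZMod N) :=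
  {y | ∃ z : Fin d → ℤ, rv z ∈ S ∧ φ z = y}

/-- the Bohr set -/
def bohr {N : ℕ} (Γ : Finset (ZMod N)) (ε : ℝ) : Set (ZMod N) :=
  {x | ∀ γ ∈ Γ, nd (((γ * x).val : ℝ) / (N : ℝ)) ≤ ε}

/-- a locally finite subgroup of `ℝ^r` that contains `ℤ^r`, with a homomorphism to `Z_N` -/
structure Red (N r : ℕ) where
  /-- the subgroup -/
  M : AddSubgroup (Fin r → ℝ)
  /-- the homomorphism -/
  ψ : M →+ ZMod N
  int_mem : ∀ v : Fin r → ℤ, rv v ∈ M
  fin : ∀ R : ℝ, {x : Fin r → ℝ | x ∈ M ∧ ‖x‖ ≤ R}.Finite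

/-- the kernel, as a subgroup of `ℝ^r` -/
def Red.ker {N r : ℕ} (D : Red N r) : AddSubgroup (Fin r → ℝ) := D.ψ.ker.map D.M.subtype

theorem Red.mem_ker {N r : ℕ} (D : Red N r) (x : Fin r → ℝ) :
    x ∈ D.ker ↔ ∃ h : x ∈ D.M, D.ψ ⟨x, h⟩ = 0 := by
  rw [Red.ker, AddSubgroup.mem_map]
  constructor
  · rintro ⟨y, hy, rfl⟩
    exact ⟨y.2, hy⟩
  · rintro ⟨h, h0⟩
    exact ⟨⟨x, h⟩, h0, rfl⟩

/-- a locally finite subgroup of `ℝ^r` that spans `ℝ^r` -/
structure Lat {r : ℕ} (Λ : AddSubgroup (Fin r → ℝ)) : Prop where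
  fin : ∀ R : ℝ, {x : Fin r → ℝ | x ∈ Λ ∧ ‖x‖ ≤ R}.Finite
  span : Submodule.span ℝ (Λ : Set (Fin r → ℝ)) = ⊤

/-- the generalised arithmetic progression with steps `x k` and lengths `n k` -/
def gap {N d : ℕ} (x : Fin d → ZMod N) (n : Fin d → ℕ) : Set (ZMod N) :=
  {y | ∃ m : Fin d → ℤ, (∀ k, |m k| ≤ (n k : ℤ)) ∧ y = ∑ k, (m k : ZMod N) * x k}

theorem rv_add {d : ℕ} (z w : Fin d → ℤ) : rv (z + w) = rv z + rv w := by
  funext i; simp [rv]

theorem rv_neg {d : ℕ} (z : Fin d → ℤ) : rv (-z) = -rv z := by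
  funext i; simp [rv]

theorem rv_injective {d : ℕ} : Function.Injective (rv : (Fin d → ℤ) → Fin d → ℝ) := by
  intro z w h
  funext i
  have := congrFun h i
  simpa [rv] using this

end H97CP
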