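import Mathlib
import Pool.Agent.H97.CP.Defs

/-!
# Bohr sets are convex progressions, and their size
-/

set_option autoImplicit false

namespace H97CP

open Pool.Agent.H33.QB

theorem Conv_nd_le (y : ℝ) (k : ℤ) : nd y ≤ |y - k| := round_le y k

theorem Conv_nd_cast {N : ℕ} [NeZero N] (t : ℤ) (y : ZMod N) (h : (t : ZMod N) = y) :
    nd ((y.val : ℝ) / (N : ℝ)) = nd ((t : ℝ) / (N : ℝ)) := by
  have hN : (N : ℝ) ≠ 0 := by exact_mod_cast NeZero.ne N
  have h1 : (((y.val : ℤ) - t : ℤ) : ZMod N) = 0 := by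
    push_cast
    rw [ZMod.natCast_zmod_val, h, sub_self]
  rw [ZMod.intCast_zmod_eq_zero_iff_dvd] at h1
  obtain ⟨k, hk⟩ := h1
  have h2 : (y.val : ℝ) = (t : ℝ) + N * k := by
    have : (((y.val : ℤ) - t : ℤ) : ℝ) = (((N : ℤ) * k : ℤ) : ℝ) := congrArg _ hk
    push_cast at this
    linarith
  rw [h2, add_div, mul_div_cancel_left₀ _ hN, nd_add_int]

theorem Conv_mul_cast {N : ℕ} [NeZero N] (γ : ZMod N) (t : ℤ) (x : ZMod N)
    (h : (t : ZMod N) = x) :
    nd (((γ * x).val : ℝ) / (N : ℝ)) = nd ((γ.val : ℝ) * (t : ℝ) / (N : ℝ)) := by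
  have h1 : ((((γ.val : ℤ) * t : ℤ)) : ZMod N) = γ * x := by
    push_cast
    rw [ZMod.natCast_zmod_val, h]
  rw [Conv_nd_cast _ _ h1]
  push_cast
  rfl

theorem Conv_div {a b K N : ℕ} (hN : 0 < N) (h : K * a / N = K * b / N) :
    (K : ℝ) * |(a : ℝ) - b| < N := by
  have h1 := Nat.div_add_mod (K * a) N
  have h2 := Nat.div_add_mod (K * b) N
  have h3 := Nat.mod_lt (K * a) hN
  have h4 := Nat.mod_lt (K * b) hN
  rw [h] at h1
  have e1 : ((N : ℝ) * ((K * b / N : ℕ) : ℝ) + ((K * a % N : ℕ) : ℝ)) = (K : ℝ) * a := by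
    exact_mod_cast h1
  have e2 : ((N : ℝ) * ((K * b / N : ℕ) : ℝ) + ((K * b % N : ℕ) : ℝ)) = (K : ℝ) * b := by
    exact_mod_cast h2
  have e3 : ((K * a % N : ℕ) : ℝ) < N := by exact_mod_cast h3
  have e4 : ((K * b % N : ℕ) : ℝ) < N := by exact_mod_cast h4
  have e5 : (0 : ℝ) ≤ ((K * a % N : ℕ) : ℝ) := Nat.cast_nonneg _
  have e6 : (0 : ℝ) ≤ ((K * b % N : ℕ) : ℝ) := Nat.cast_nonneg _
  have e7 : (K : ℝ) * |(a : ℝ) - b| = |(K : ℝ) * a - K * b| := by
    rw [← mul_sub, abs_mul, abs_of_nonneg (Nat.cast_nonneg K : (0 : ℝ) ≤ (K : ℝ))]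
  rw [e7, abs_lt]
  constructor <;> linarith

theorem bohr_progr {N : ℕ} [NeZero N] (Γ : Finset (ZMod N)) (ε : ℝ) :
    ∃ (φ : (Fin (Γ.card + 1) → ℤ) →+ ZMod N) (S : Set (Fin (Γ.card + 1) → ℝ)),
      Convex ℝ S ∧ (∀ x ∈ S, -x ∈ S) ∧ progr φ S = bohr Γ ε := by
  classical
  have hN : (N : ℝ) ≠ 0 := by exact_mod_cast NeZero.ne N
  obtain ⟨e⟩ : Nonempty (Γ ≃ Fin Γ.card) := ⟨Γ.equivFin⟩
  refine ⟨(Int.castAddHom (ZMod N)).comp (Pi.evalAddMonoidHom (fun _ => ℤ) 0),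
    {v | ∀ i : Fin Γ.card, |((e.symm i).1.val : ℝ) * v 0 / (N : ℝ) - v i.succ| ≤ ε},
    ?_, ?_, ?_⟩
  · intro x hx y hy a b ha hb hab i
    have h1 := hx i
    have h2 := hy i
    have e1 : ((e.symm i).1.val : ℝ) * (a • x + b • y) 0 / (N : ℝ) - (a • x + b • y) i.succ
        = a * (((e.symm i).1.val : ℝ) * x 0 / (N : ℝ) - x i.succ)
          + b * (((e.symm i).1.val : ℝ) * y 0 / (N : ℝ) - y i.succ) := by
      simp only [Pi.add_apply, Pi.smul_apply, smul_eq_mul]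
      ring
    rw [e1]
    refine (abs_add_le _ _).trans ?_
    rw [abs_mul, abs_mul, abs_of_nonneg ha, abs_of_nonneg hb]
    calc a * |((e.symm i).1.val : ℝ) * x 0 / (N : ℝ) - x i.succ|
          + b * |((e.symm i).1.val : ℝ) * y 0 / (N : ℝ) - y i.succ| ≤ a * ε + b * ε :=
        add_le_add (mul_le_mul_of_nonneg_left h1 ha) (mul_le_mul_of_nonneg_left h2 hb)
      _ = ε := by rw [← add_mul, hab, one_mul]
  · intro x hx i
    have h1 := hx i
    have e1 : ((e.symm i).1.val : ℝ) * (-x) 0 / (N : ℝ) - (-x) i.succ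
        = -(((e.symm i).1.val : ℝ) * x 0 / (N : ℝ) - x i.succ) := by
      simp only [Pi.neg_apply]
      ring
    rw [e1, abs_neg]
    exact h1
  · ext x
    constructor
    · rintro ⟨z, hz, hx⟩ γ hγ
      have h0 : ((z 0 : ℤ) : ZMod N) = x := hx
      have h1 := hz (e ⟨γ, hγ⟩)
      rw [Equiv.symm_apply_apply] at h1
      rw [Conv_mul_cast γ _ x h0]
      exact (Conv_nd_le _ (z (e ⟨γ, hγ⟩).succ)).trans h1
    · intro hx
      have h0 : (((x.val : ℤ) : ℤ) : ZMod N) = x := by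
        push_cast
        exact ZMod.natCast_zmod_val x
      refine ⟨Fin.cons (x.val : ℤ) (fun i =>
        round (((e.symm i).1.val : ℝ) * ((x.val : ℤ) : ℝ) / (N : ℝ))), ?_, ?_⟩
      · intro i
        have h1 := hx (e.symm i).1 (e.symm i).2
        rw [Conv_mul_cast _ _ x h0] at h1
        exact h1
      · exact h0

theorem bohr_card {N : ℕ} [NeZero N] (Γ : Finset (ZMod N)) (ε : ℝ) (hε : 0 < ε) :
    (N : ℝ) ≤ (bohr Γ ε).ncard * (1 / ε + 1) ^ Γ.card := by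
  classical
  have hN : (0 : ℝ) < (N : ℝ) := by exact_mod_cast Nat.pos_of_ne_zero (NeZero.ne N)
  have hN' : 0 < N := Nat.pos_of_ne_zero (NeZero.ne N)
  obtain ⟨K, hK⟩ : ∃ K : ℕ, K = ⌈1 / ε⌉₊ := ⟨_, rfl⟩
  have hK1 : 1 / ε ≤ (K : ℝ) := by rw [hK]; exact Nat.le_ceil _
  have hK2 : (K : ℝ) ≤ 1 / ε + 1 := by
    rw [hK]; exact (Nat.ceil_lt_add_one (by positivity)).le
  have hK0 : (0 : ℝ) < K := lt_of_lt_of_le (by positivity) hK1
  have hlt : ∀ y : ZMod N, K * y.val / N < K := by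
    intro y
    apply Nat.div_lt_of_lt_mul
    rw [mul_comm N K]
    exact Nat.mul_lt_mul_of_pos_left (ZMod.val_lt y) (by exact_mod_cast hK0)
  obtain ⟨f, hf⟩ : ∃ f : ZMod N → (Γ → Fin K), ∀ x γ, (f x γ : ℕ) = K * (γ.1 * x).val / N :=
    ⟨fun x γ => ⟨K * (γ.1 * x).val / N, hlt _⟩, fun _ _ => rfl⟩
  have hmem : ∀ x x0 : ZMod N, f x = f x0 → x - x0 ∈ bohr Γ ε := by
    intro x x0 h γ hγ
    have h1 : K * (γ * x).val / N = K * (γ * x0).val / N := by
      have h2 := hf x ⟨γ, hγ⟩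
      have h3 := hf x0 ⟨γ, hγ⟩
      rw [← h2, ← h3, h]
    have h4 := Conv_div hN' h1
    have h5 : (((((γ * x).val : ℤ) - ((γ * x0).val : ℤ) : ℤ)) : ZMod N) = γ * (x - x0) := by
      push_cast
      rw [ZMod.natCast_zmod_val, ZMod.natCast_zmod_val, mul_sub]
    rw [Conv_nd_cast _ _ h5]
    refine (Conv_nd_le _ 0).trans ?_
    push_cast
    rw [sub_zero, abs_div, abs_of_pos hN, div_le_iff₀ hN]
    have h6 : 1 ≤ ε * K := by
      rw [div_le_iff₀ hε] at hK1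
      linarith
    have h7 : (0 : ℝ) ≤ |((γ * x).val : ℝ) - ((γ * x0).val : ℝ)| := abs_nonneg _
    calc |((γ * x).val : ℝ) - ((γ * x0).val : ℝ)|
        ≤ (ε * K) * |((γ * x).val : ℝ) - ((γ * x0).val : ℝ)| := le_mul_of_one_le_left h7 h6
      _ = ε * (K * |((γ * x).val : ℝ) - ((γ * x0).val : ℝ)|) := by ring
      _ ≤ ε * N := mul_le_mul_of_nonneg_left h4.le hε.le
  have hfin : (bohr Γ ε).Finite := Set.toFinite _
  have hcard := Finset.card_le_mul_card_image (f := f) (Finset.univ : Finset (ZMod N))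
    (bohr Γ ε).ncard (by
      intro c hc
      obtain ⟨x0, -, hx0⟩ := Finset.mem_image.1 hc
      rw [Set.ncard_eq_toFinset_card _ hfin]
      apply Finset.card_le_card_of_injOn (fun x => x - x0)
      · intro x hx
        have hx' : f x = c := (Finset.mem_filter.1 hx).2
        have h8 : x - x0 ∈ hfin.toFinset := by
          rw [Set.Finite.mem_toFinset]
          exact hmem x x0 (by rw [hx', hx0])
        exact h8
      · intro x _ y _ hxy
        exact sub_left_injective hxy)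
  have h9 : (Finset.univ.image f).card ≤ K ^ Γ.card := by
    refine (Finset.card_le_univ _).trans ?_
    rw [Fintype.card_fun, Fintype.card_fin, Fintype.card_coe]
  rw [Finset.card_univ, ZMod.card] at hcard
  have h10 : (N : ℝ) ≤ (bohr Γ ε).ncard * (K : ℝ) ^ Γ.card := by
    exact_mod_cast hcard.trans (Nat.mul_le_mul_left _ h9)
  refine h10.trans (mul_le_mul_of_nonneg_left ?_ (Nat.cast_nonneg _))
  exact pow_le_pow_left₀ hK0.le hK2 _

end H97CP
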