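import Mathlib
import Pool.Agent.H97.CP.Defs

/-!
# Counting lattice points by the successive minima
-/

set_option autoImplicit false

namespace H97CP

theorem Count_pow (m : ℕ) (hm : 1 ≤ m) : 2 ^ Nat.clog 2 m ≤ 2 * m := by
  rcases Nat.eq_or_lt_of_le hm with h1 | h1
  · subst h1
    simp
  · have h2 := Nat.pow_pred_clog_lt_self (b := 2) (by norm_num) h1
    have h3 : 0 < Nat.clog 2 m := Nat.clog_pos (by norm_num) h1
    obtain ⟨c, hc⟩ := Nat.exists_eq_succ_of_ne_zero h3.ne'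
    rw [hc, Nat.pred_succ] at h2
    rw [hc, pow_succ]
    omega

theorem Count_inj {r : ℕ} (Λ : AddSubgroup (Fin r → ℝ))
    (w : Fin r → (Fin r → ℝ))
    (hmin : ∀ k, ∀ x ∈ Λ, ‖x‖ < ‖w k‖ → x ∈ Submodule.span ℝ (w '' {j | j < k}))
    (b : Fin r → (Fin r → ℝ)) (t : Fin r → ((Fin r → ℝ) →ₗ[ℝ] ℝ)) (hb : ∀ k, b k ∈ Λ)
    (hsum : ∀ x, x = ∑ k, t k x • b k)
    (hker : ∀ k, ∀ x ∈ Submodule.span ℝ (w '' {j | j < k}), t k x = 0)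
    (R : ℝ) (q : Fin r → ℕ) (hq0 : ∀ k, 0 < q k)
    (hq1 : ∀ k, 2 * R < (q k : ℝ) * ‖w k‖) (hdvd : ∀ j k, j ≤ k → q k ∣ q j)
    (z : Fin r → ℝ) (hz : ‖z‖ ≤ 2 * R) (m : Fin r → ℤ)
    (hm : ∀ k, t k z = (q k : ℝ) * (m k : ℝ)) : z = 0 := by
  classical
  by_contra hne
  have hex : ∃ k, t k z ≠ 0 := by
    by_contra hno
    push Not at hno
    apply hne
    rw [hsum z]
    exact Finset.sum_eq_zero fun k _ => by rw [hno k, zero_smul]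
  obtain ⟨k0, hk0⟩ := hex
  have hT : (Finset.univ.filter (fun k => t k z ≠ 0)).Nonempty := ⟨k0, by simp [hk0]⟩
  obtain ⟨k, hk, hmax⟩ := Finset.exists_max_image _ (fun k => k) hT
  simp only [Finset.mem_filter, Finset.mem_univ, true_and] at hk hmax
  have hqk : (0 : ℝ) < (q k : ℝ) := by exact_mod_cast hq0 k
  let y : Fin r → ℝ := ((q k : ℝ)⁻¹) • z
  have hy : y ∈ Λ := by
    have hyd : y = ∑ j, ((q k : ℝ)⁻¹ * t j z) • b j := by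
      show ((q k : ℝ)⁻¹) • z = _
      conv_lhs => rw [hsum z]
      rw [Finset.smul_sum]
      exact Finset.sum_congr rfl fun j _ => by rw [smul_smul]
    rw [hyd]
    refine AddSubgroup.sum_mem _ fun j _ => ?_
    by_cases hj : t j z = 0
    · rw [hj, mul_zero, zero_smul]
      exact AddSubgroup.zero_mem _
    · obtain ⟨c, hc⟩ := hdvd j k (hmax j hj)
      have he : (q k : ℝ)⁻¹ * t j z = (((c : ℤ) * m j : ℤ) : ℝ) := by
        rw [hm j, hc]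
        push_cast
        field_simp
      rw [he, Int.cast_smul_eq_zsmul]
      exact AddSubgroup.zsmul_mem _ (hb j) _
  have hty : t k y ≠ 0 := by
    show t k (((q k : ℝ)⁻¹) • z) ≠ 0
    rw [map_smul, smul_eq_mul]
    exact mul_ne_zero (inv_ne_zero hqk.ne') hk
  have hnorm : ‖w k‖ ≤ ‖y‖ := by
    by_contra hlt
    exact hty (hker k y (hmin k y hy (not_le.mp hlt)))
  have hyn : ‖y‖ = (q k : ℝ)⁻¹ * ‖z‖ := by
    show ‖((q k : ℝ)⁻¹) • z‖ = _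
    rw [norm_smul, Real.norm_of_nonneg (inv_nonneg.mpr hqk.le)]
  have h1 : (q k : ℝ) * ‖w k‖ ≤ ‖z‖ := by
    rw [hyn] at hnorm
    calc (q k : ℝ) * ‖w k‖ ≤ (q k : ℝ) * ((q k : ℝ)⁻¹ * ‖z‖) :=
          mul_le_mul_of_nonneg_left hnorm hqk.le
      _ = ‖z‖ := by rw [← mul_assoc, mul_inv_cancel₀ hqk.ne', one_mul]
  exact absurd (hq1 k) (not_lt.mpr (h1.trans hz))

theorem count_le {r : ℕ} (Λ : AddSubgroup (Fin r → ℝ)) (h : Lat Λ)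
    (w : Fin r → (Fin r → ℝ)) (hli : LinearIndependent ℝ w)
    (hmin : ∀ k, ∀ x ∈ Λ, ‖x‖ < ‖w k‖ → x ∈ Submodule.span ℝ (w '' {j | j < k}))
    (hmono : ∀ j k, j ≤ k → ‖w j‖ ≤ ‖w k‖)
    (b : Fin r → (Fin r → ℝ)) (t : Fin r → ((Fin r → ℝ) →ₗ[ℝ] ℝ)) (hb : ∀ k, b k ∈ Λ)
    (hsum : ∀ x, x = ∑ k, t k x • b k)
    (hker : ∀ k, ∀ x ∈ Submodule.span ℝ (w '' {j | j < k}), t k x = 0)
    (hint : ∀ x ∈ Λ, ∀ k, ∃ n : ℤ, t k x = n) (R : ℝ) (hR : 0 ≤ R) :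
    (({x : Fin r → ℝ | x ∈ Λ ∧ ‖x‖ ≤ R}.ncard : ℕ) : ℝ) ≤ ∏ k, (2 * (2 * R / ‖w k‖ + 1)) := by
  classical
  have hw0 : ∀ k, 0 < ‖w k‖ := fun k => norm_pos_iff.mpr (hli.ne_zero k)
  let q : Fin r → ℕ := fun k => 2 ^ Nat.clog 2 (⌊2 * R / ‖w k‖⌋₊ + 1)
  have hq0 : ∀ k, 0 < q k := fun k => Nat.pow_pos (by norm_num)
  have hq1 : ∀ k, 2 * R < (q k : ℝ) * ‖w k‖ := by
    intro k
    have h1 : ⌊2 * R / ‖w k‖⌋₊ + 1 ≤ q k := Nat.le_pow_clog (by norm_num) _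
    have h2 := Nat.lt_floor_add_one (2 * R / ‖w k‖)
    have h3 : ((⌊2 * R / ‖w k‖⌋₊ + 1 : ℕ) : ℝ) ≤ (q k : ℝ) := by exact_mod_cast h1
    push_cast at h3
    have h4 := h2.trans_le h3
    rwa [div_lt_iff₀ (hw0 k)] at h4
  have hq2 : ∀ k, (q k : ℝ) ≤ 2 * (2 * R / ‖w k‖ + 1) := by
    intro k
    have h1 : q k ≤ 2 * (⌊2 * R / ‖w k‖⌋₊ + 1) := Count_pow _ (by omega)
    have h2 : ((⌊2 * R / ‖w k‖⌋₊ : ℕ) : ℝ) ≤ 2 * R / ‖w k‖ :=
      Nat.floor_le (div_nonneg (by linarith) (hw0 k).le)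
    have h3 : (q k : ℝ) ≤ ((2 * (⌊2 * R / ‖w k‖⌋₊ + 1) : ℕ) : ℝ) := by exact_mod_cast h1
    push_cast at h3
    linarith
  have hdvd : ∀ j k, j ≤ k → q k ∣ q j := by
    intro j k hjk
    apply pow_dvd_pow
    apply Nat.clog_mono_right
    have h1 : 2 * R / ‖w k‖ ≤ 2 * R / ‖w j‖ :=
      div_le_div_of_nonneg_left (by linarith) (hw0 j) (hmono j k hjk)
    have h2 := Nat.floor_le_floor h1
    omega
  have hne : ∀ k, NeZero (q k) := fun k => ⟨(hq0 k).ne'⟩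
  let f : (Fin r → ℝ) → ((k : Fin r) → ZMod (q k)) := fun x k => ((⌊t k x⌋ : ℤ) : ZMod (q k))
  have hinj : Set.InjOn f {x : Fin r → ℝ | x ∈ Λ ∧ ‖x‖ ≤ R} := by
    rintro x ⟨hx, hxR⟩ x' ⟨hx', hxR'⟩ hff
    have key : ∀ k, ∃ m : ℤ, t k (x - x') = (q k : ℝ) * (m : ℝ) := by
      intro k
      obtain ⟨a, ha⟩ := hint x hx k
      obtain ⟨a', ha'⟩ := hint x' hx' k
      have h1 : ((⌊t k x⌋ : ℤ) : ZMod (q k)) = ((⌊t k x'⌋ : ℤ) : ZMod (q k)) := congrFun hff k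
      rw [ha, ha', Int.floor_intCast, Int.floor_intCast] at h1
      have h2 := (ZMod.intCast_eq_intCast_iff_dvd_sub a a' (q k)).mp h1
      obtain ⟨c, hc⟩ := h2
      refine ⟨-c, ?_⟩
      rw [map_sub, ha, ha']
      have h3 : ((a' - a : ℤ) : ℝ) = (((q k : ℤ) * c : ℤ) : ℝ) := by rw [hc]
      push_cast at h3 ⊢
      linarith
    choose m hm using key
    have hz : ‖x - x'‖ ≤ 2 * R := (norm_sub_le _ _).trans (by linarith)
    have := Count_inj Λ w hmin b t hb hsum hker R q hq0 hq1 hdvd (x - x') hz m hm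
    exact sub_eq_zero.mp this
  have hcard : ({x : Fin r → ℝ | x ∈ Λ ∧ ‖x‖ ≤ R}.ncard : ℕ) ≤ ∏ k, q k := by
    rw [← Set.InjOn.ncard_image hinj]
    calc (f '' {x : Fin r → ℝ | x ∈ Λ ∧ ‖x‖ ≤ R}).ncard
        ≤ (Set.univ : Set ((k : Fin r) → ZMod (q k))).ncard :=
          Set.ncard_le_ncard (Set.subset_univ _) Set.finite_univ
      _ = ∏ k, q k := by
          rw [Set.ncard_univ, Nat.card_pi]
          exact Finset.prod_congr rfl fun k _ => Nat.card_zmod _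
  calc (({x : Fin r → ℝ | x ∈ Λ ∧ ‖x‖ ≤ R}.ncard : ℕ) : ℝ) ≤ ((∏ k, q k : ℕ) : ℝ) := by
        exact_mod_cast hcard
    _ = ∏ k, (q k : ℝ) := by push_cast; rfl
    _ ≤ ∏ k, (2 * (2 * R / ‖w k‖ + 1)) :=
        Finset.prod_le_prod (fun k _ => Nat.cast_nonneg _) fun k _ => hq2 k

end H97CP
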