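import Mathlib
import Pool.Agent.H97.CP.Defs

/-!
# The Bohr form and the progression form
-/

set_option autoImplicit false

namespace H97CP

/-- the statement of the problem -/
def BohrForm : Prop :=
  ∃ C : ℝ, 0 < C ∧ ∃ c : ℝ, 0 < c ∧
    ∀ N : ℕ, 0 < N → ∀ A : Finset (ZMod N), A.Nonempty →
      (A.card : ℝ) / (N : ℝ) ≤ 1 / 2 →
      ∃ Γ : Finset (ZMod N), ∃ ε : ℝ, 0 < ε ∧
        (Γ.card : ℝ) ≤ C * Real.log ((N : ℝ) / (A.card : ℝ)) ∧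
        c / Real.log ((N : ℝ) / (A.card : ℝ)) ≤ ε ∧
        ∀ x : ZMod N,
          (∀ γ ∈ Γ,
            |((γ * x).val : ℝ) / (N : ℝ) - ((round (((γ * x).val : ℝ) / (N : ℝ)) : ℤ) : ℝ)| ≤ ε) →
          ∃ a₁ ∈ A, ∃ a₂ ∈ A, ∃ a₃ ∈ A, ∃ a₄ ∈ A, x = a₁ + a₂ - a₃ - a₄

/-- the form with generalised arithmetic progressions -/
def GapForm : Prop :=
  ∃ C : ℝ, 0 < C ∧ ∀ N : ℕ, 0 < N → ∀ A : Finset (ZMod N), A.Nonempty →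
    (A.card : ℝ) / (N : ℝ) ≤ 1 / 2 →
    ∃ (d : ℕ) (x : Fin d → ZMod N) (n : Fin d → ℕ),
      (d : ℝ) ≤ C * Real.log ((N : ℝ) / (A.card : ℝ)) ∧
      (N : ℝ) * Real.exp (-(C * Real.log ((N : ℝ) / (A.card : ℝ))
        * Real.log (Real.log ((N : ℝ) / (A.card : ℝ)) + 2))) ≤ (gap x n).ncard ∧
      ∀ y ∈ gap x n, ∃ a₁ ∈ A, ∃ a₂ ∈ A, ∃ a₃ ∈ A, ∃ a₄ ∈ A, y = a₁ + a₂ - a₃ - a₄

end H97CP
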