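import Mathlib
import Pool.Agent.H97.CP.Defs

/-!
# A basis of a lattice adapted to the successive minima
-/

set_option autoImplicit false

namespace H97CP

/-- the minimal vector of level `k` -/
theorem Flag_min {r : ℕ} (Λ : AddSubgroup (Fin r → ℝ)) (h : Lat Λ)
    (B : Module.Basis (Fin r) ℝ (Fin r → ℝ)) (hw : ∀ k, B k ∈ Λ) (k : Fin r) :
    ∃ b ∈ Λ, (∀ i, k < i → B.coord i b = 0) ∧ 0 < B.coord k b ∧ B.coord k b ≤ 1 ∧
      (∀ i, i < k → |B.coord i b| ≤ 1 / 2) ∧
      ∀ x ∈ Λ, (∀ i, k < i → B.coord i x = 0) → 0 < B.coord k x → B.coord k b ≤ B.coord k x := by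
  classical
  set S : Set (Fin r → ℝ) := {x | x ∈ Λ ∧ (∀ i, k < i → B.coord i x = 0) ∧ 0 < B.coord k x ∧
    B.coord k x ≤ 1 ∧ ∀ i, i < k → |B.coord i x| ≤ 1 / 2} with hS
  have hnorm : ∀ x ∈ S, ‖x‖ ≤ ∑ i, ‖B i‖ := by
    rintro x ⟨-, h1, h2, h3, h4⟩
    calc ‖x‖ = ‖∑ i, B.coord i x • B i‖ := by
            congr 1
            exact (B.sum_repr x).symm
      _ ≤ ∑ i, ‖B.coord i x • B i‖ := norm_sum_le _ _
      _ ≤ ∑ i, ‖B i‖ := by
            refine Finset.sum_le_sum fun i _ => ?_
            rw [norm_smul, Real.norm_eq_abs]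
            have hc : |B.coord i x| ≤ 1 := by
              rcases lt_trichotomy i k with hik | hik | hik
              · exact (h4 i hik).trans (by norm_num)
              · subst hik
                rw [abs_of_pos h2]; exact h3
              · rw [h1 i hik]; simp
            calc |B.coord i x| * ‖B i‖ ≤ 1 * ‖B i‖ :=
                  mul_le_mul_of_nonneg_right hc (norm_nonneg _)
              _ = ‖B i‖ := one_mul _
  have hfin : S.Finite := (h.fin (∑ i, ‖B i‖)).subset fun x hx => ⟨hx.1, hnorm x hx⟩
  have hcB : ∀ i j, B.coord i (B j) = if i = j then 1 else 0 := by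
    intro i j
    rw [Module.Basis.coord_apply, Module.Basis.repr_self, Finsupp.single_apply]
    simp only [eq_comm]
  have hne : S.Nonempty := by
    refine ⟨B k, hw k, fun i hi => ?_, ?_, ?_, fun i hi => ?_⟩
    · rw [hcB, if_neg (ne_of_gt hi)]
    · rw [hcB, if_pos rfl]; exact one_pos
    · rw [hcB, if_pos rfl]
    · rw [hcB, if_neg (ne_of_lt hi)]; norm_num
  obtain ⟨b, hbS, hbmin⟩ := Set.exists_min_image S (fun x => B.coord k x) hfin hne
  refine ⟨b, hbS.1, hbS.2.1, hbS.2.2.1, hbS.2.2.2.1, hbS.2.2.2.2, fun x hx h1 h2 => ?_⟩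
  by_cases h3 : B.coord k x ≤ 1
  · set y : Fin r → ℝ := x - ∑ i ∈ Finset.univ.filter (fun i => i < k), (round (B.coord i x) : ℤ) • B i
      with hy
    have hyc : ∀ j, B.coord j y = B.coord j x - if j < k then (round (B.coord j x) : ℝ) else 0 := by
      intro j
      rw [hy, map_sub, map_sum]
      congr 1
      have : ∀ i ∈ Finset.univ.filter (fun i => i < k),
          B.coord j ((round (B.coord i x) : ℤ) • B i) =
            if j = i then (round (B.coord i x) : ℝ) else 0 := by
        intro i _
        rw [map_zsmul, hcB]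
        by_cases hji : j = i
        · simp [hji]
        · simp [hji]
      rw [Finset.sum_congr rfl this, Finset.sum_ite_eq]
      simp
    have hyS : y ∈ S := by
      refine ⟨?_, fun i hi => ?_, ?_, ?_, fun i hi => ?_⟩
      · exact Λ.sub_mem hx (Λ.sum_mem fun i _ => Λ.zsmul_mem (hw i) _)
      · rw [hyc, h1 i hi, if_neg (not_lt.2 hi.le), sub_zero]
      · rw [hyc, if_neg (lt_irrefl k), sub_zero]; exact h2
      · rw [hyc, if_neg (lt_irrefl k), sub_zero]; exact h3
      · rw [hyc, if_pos hi]; exact abs_sub_round _
    have := hbmin y hyS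
    rw [hyc k, if_neg (lt_irrefl k), sub_zero] at this
    exact this
  · exact hbS.2.2.2.1.trans (not_le.1 h3).le

theorem exists_flag {r : ℕ} (Λ : AddSubgroup (Fin r → ℝ)) (h : Lat Λ)
    (w : Fin r → (Fin r → ℝ)) (hw : ∀ k, w k ∈ Λ) (hli : LinearIndependent ℝ w)
    (hmono : ∀ j k, j ≤ k → ‖w j‖ ≤ ‖w k‖) :
    ∃ (b : Fin r → (Fin r → ℝ)) (t : Fin r → ((Fin r → ℝ) →ₗ[ℝ] ℝ)),
      (∀ k, b k ∈ Λ) ∧ (∀ k, ‖b k‖ ≤ (r : ℝ) * ‖w k‖) ∧
      (∀ x, x = ∑ k, t k x • b k) ∧ (∀ j k, t j (b k) = if j = k then 1 else 0) ∧
      (∀ k, ∀ x ∈ Submodule.span ℝ (w '' {j | j < k}), t k x = 0) ∧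
      ∀ x ∈ Λ, ∀ k, ∃ n : ℤ, t k x = n := by
  classical
  have hcard : Fintype.card (Fin r) = Module.finrank ℝ (Fin r → ℝ) := by simp
  set B : Module.Basis (Fin r) ℝ (Fin r → ℝ) :=
    Module.Basis.mk hli (ge_of_eq (hli.span_eq_top_of_card_eq_finrank' hcard)) with hB
  have hBw : ∀ k, B k = w k := fun k => Module.Basis.mk_apply hli _ k
  have hwB : ∀ k, B k ∈ Λ := fun k => by rw [hBw]; exact hw k
  have hmin := fun k => Flag_min Λ h B hwB k
  choose b hbΛ hb0 hbpos hb1 hbhalf hbmin using hmin
  -- linear independence of the `b k`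
  have hbli : LinearIndependent ℝ b := by
    rw [Fintype.linearIndependent_iff]
    intro g hg
    by_contra hcon
    push Not at hcon
    obtain ⟨i0, hi0⟩ := hcon
    have hne : (Finset.univ.filter (fun i => g i ≠ 0)).Nonempty := ⟨i0, by simp [hi0]⟩
    set m := (Finset.univ.filter (fun i => g i ≠ 0)).max' hne with hm
    have hmm : g m ≠ 0 := by
      have := Finset.max'_mem _ hne
      rw [Finset.mem_filter] at this
      exact this.2
    have hmax : ∀ j, m < j → g j = 0 := by
      intro j hj
      by_contra hgj
      have := Finset.le_max' (Finset.univ.filter (fun i => g i ≠ 0)) j (by simp [hgj])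
      exact absurd hj (not_lt.2 this)
    have h1 : B.coord m (∑ i, g i • b i) = 0 := by rw [hg, map_zero]
    rw [map_sum, Finset.sum_eq_single m] at h1
    · rw [map_smul, smul_eq_mul] at h1
      rcases mul_eq_zero.1 h1 with h2 | h2
      · exact hmm h2
      · exact (hbpos m).ne' h2
    · intro j _ hjm
      rw [map_smul, smul_eq_mul]
      rcases lt_or_gt_of_ne hjm with hlt | hgt
      · rw [hb0 j m hlt, mul_zero]
      · rw [hmax j hgt, zero_mul]
    · intro hmem; exact absurd (Finset.mem_univ _) hmem
  set C : Module.Basis (Fin r) ℝ (Fin r → ℝ) :=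
    Module.Basis.mk hbli (ge_of_eq (hbli.span_eq_top_of_card_eq_finrank' hcard)) with hC
  have hCb : ∀ k, C k = b k := fun k => Module.Basis.mk_apply hbli _ k
  have htb : ∀ j k, C.coord j (b k) = if j = k then 1 else 0 := by
    intro j k
    rw [← hCb k, Module.Basis.coord_apply, Module.Basis.repr_self, Finsupp.single_apply]
    simp only [eq_comm]
  refine ⟨b, fun k => C.coord k, hbΛ, ?_, ?_, htb, ?_, ?_⟩
  · intro k
    calc ‖b k‖ = ‖∑ i, B.coord i (b k) • B i‖ := by
            congr 1
            exact (B.sum_repr (b k)).symm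
      _ ≤ ∑ i, ‖B.coord i (b k) • B i‖ := norm_sum_le _ _
      _ ≤ ∑ _i : Fin r, ‖w k‖ := by
            refine Finset.sum_le_sum fun i _ => ?_
            rw [norm_smul, Real.norm_eq_abs, hBw]
            rcases lt_trichotomy i k with hik | hik | hik
            · have h1 := hbhalf k i hik
              have h2 := hmono i k hik.le
              calc |B.coord i (b k)| * ‖w i‖ ≤ 1 * ‖w k‖ :=
                    mul_le_mul (h1.trans (by norm_num)) h2 (norm_nonneg _) zero_le_one
                _ = ‖w k‖ := one_mul _
            · subst hik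
              rw [abs_of_pos (hbpos i)]
              calc B.coord i (b i) * ‖w i‖ ≤ 1 * ‖w i‖ :=
                    mul_le_mul_of_nonneg_right (hb1 i) (norm_nonneg _)
                _ = ‖w i‖ := one_mul _
            · rw [hb0 k i hik]; simp
      _ = (r : ℝ) * ‖w k‖ := by simp
  · intro x
    have := (C.sum_repr x).symm
    calc x = ∑ i, C.repr x i • C i := this
      _ = ∑ i, C.coord i x • b i := Finset.sum_congr rfl fun i _ => by
            rw [hCb, Module.Basis.coord_apply]
  · intro k
    -- `t k (w j) = 0` for `j < k`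
    have hkey : ∀ m : ℕ, ∀ j : Fin r, (j : ℕ) = m → j < k → C.coord k (w j) = 0 := by
      intro m
      induction m using Nat.strong_induction_on with
      | _ m ih =>
        intro j hjm hjk
        have h1 : C.coord k (b j) = 0 := by rw [htb, if_neg (ne_of_gt hjk)]
        have h2 : b j = ∑ i, B.coord i (b j) • w i := by
          calc b j = ∑ i, B.repr (b j) i • B i := (B.sum_repr (b j)).symm
            _ = ∑ i, B.coord i (b j) • w i := Finset.sum_congr rfl fun i _ => by
                  rw [hBw, Module.Basis.coord_apply]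
        rw [h2, map_sum, Finset.sum_eq_single j] at h1
        · rw [map_smul, smul_eq_mul] at h1
          rcases mul_eq_zero.1 h1 with h3 | h3
          · exact absurd h3 (hbpos j).ne'
          · exact h3
        · intro i _ hij
          rw [map_smul, smul_eq_mul]
          rcases lt_or_gt_of_ne hij with hlt | hgt
          · rw [ih (i : ℕ) (by rw [← hjm]; exact hlt) i rfl (hlt.trans hjk), mul_zero]
          · rw [hb0 j i hgt, zero_mul]
        · intro hmem; exact absurd (Finset.mem_univ _) hmem
    intro x hx
    refine Submodule.span_induction (p := fun x _ => C.coord k x = 0) ?_ ?_ ?_ ?_ hx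
    · rintro _ ⟨j, hj, rfl⟩
      exact hkey j j rfl hj
    · simp
    · intro a c _ _ ha hc
      rw [map_add, ha, hc, add_zero]
    · intro a c _ hc
      rw [map_smul, hc, smul_zero]
  · have key : ∀ m : ℕ, ∀ x ∈ Λ, (∀ i : Fin r, m ≤ (i : ℕ) → B.coord i x = 0) →
        ∀ k, ∃ n : ℤ, C.coord k x = n := by
      intro m
      induction m with
      | zero =>
        intro x _ hx0 k
        have hx : x = 0 := by
          calc x = ∑ i, B.repr x i • B i := (B.sum_repr x).symm
            _ = 0 := Finset.sum_eq_zero fun i _ => by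
                  have := hx0 i (Nat.zero_le _)
                  rw [Module.Basis.coord_apply] at this
                  rw [this, zero_smul]
        exact ⟨0, by rw [hx, map_zero]; simp⟩
      | succ m ih =>
        intro x hx hx0 k
        by_cases hmr : m < r
        · set j : Fin r := ⟨m, hmr⟩ with hj
          set n : ℤ := ⌊B.coord j x / B.coord j (b j)⌋ with hn
          set y : Fin r → ℝ := x - n • b j with hy
          have hyΛ : y ∈ Λ := Λ.sub_mem hx (Λ.zsmul_mem (hbΛ j) _)
          have hyi : ∀ i, B.coord i y = B.coord i x - (n : ℝ) * B.coord i (b j) := by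
            intro i
            rw [hy, map_sub, map_zsmul, zsmul_eq_mul]
          have hyup : ∀ i, j < i → B.coord i y = 0 := by
            intro i hi
            rw [hyi, hx0 i (by exact hi), hb0 j i hi]
            simp
          have hyj0 : 0 ≤ B.coord j y := by
            rw [hyi]
            have h1 := Int.floor_le (B.coord j x / B.coord j (b j))
            rw [← hn, le_div_iff₀ (hbpos j)] at h1
            linarith
          have hyj1 : B.coord j y < B.coord j (b j) := by
            rw [hyi]
            have h1 := Int.lt_floor_add_one (B.coord j x / B.coord j (b j))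
            rw [← hn, div_lt_iff₀ (hbpos j)] at h1
            linarith
          have hyj : B.coord j y = 0 := by
            by_contra hne
            have hpos : 0 < B.coord j y := lt_of_le_of_ne hyj0 (Ne.symm hne)
            have := hbmin j y hyΛ hyup hpos
            linarith
          obtain ⟨n', hn'⟩ := ih y hyΛ (fun i hi => by
            rcases Nat.eq_or_lt_of_le hi with h1 | h1
            · have : i = j := Fin.ext h1.symm
              rw [this, hyj]
            · exact hyup i h1) k
          refine ⟨n' + n * (if k = j then 1 else 0), ?_⟩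
          have hxy : x = y + n • b j := by rw [hy]; simp
          rw [hxy, map_add, map_zsmul, hn', htb, zsmul_eq_mul]
          push_cast
          rfl
        · exact ih x hx (fun i hi => absurd (lt_of_le_of_lt hi i.2) (by omega)) k
    intro x hx k
    exact key r x hx (fun i hi => absurd i.2 (not_lt.2 hi)) k

end H97CP
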