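import Mathlib
import Pool.Agent.H97.CP.Defs

/-!
# The group and the kernel are lattices
-/

set_option autoImplicit false

namespace H97CP

theorem Ker_span {r : ℕ} (Λ : AddSubgroup (Fin r → ℝ)) (c : ℝ) (hc : c ≠ 0)
    (h : ∀ i : Fin r, c • (Pi.single i (1 : ℝ) : Fin r → ℝ) ∈ Λ) :
    Submodule.span ℝ (Λ : Set (Fin r → ℝ)) = ⊤ := by
  rw [eq_top_iff]
  intro v _
  have h1 : ∀ i : Fin r, (Pi.single i (1 : ℝ) : Fin r → ℝ) ∈
      Submodule.span ℝ (Λ : Set (Fin r → ℝ)) := by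
    intro i
    have h2 : c • (Pi.single i (1 : ℝ) : Fin r → ℝ) ∈ Submodule.span ℝ (Λ : Set (Fin r → ℝ)) :=
      Submodule.subset_span (h i)
    have h3 := Submodule.smul_mem _ c⁻¹ h2
    rwa [smul_smul, inv_mul_cancel₀ hc, one_smul] at h3
  have h4 : v = ∑ i, v i • (Pi.single i (1 : ℝ) : Fin r → ℝ) := by
    rw [← pi_eq_sum_univ' v]
  rw [h4]
  exact Submodule.sum_mem _ fun i _ => Submodule.smul_mem _ _ (h1 i)

theorem Ker_rv_single {r : ℕ} (i : Fin r) :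
    rv (Pi.single i (1 : ℤ)) = (Pi.single i (1 : ℝ) : Fin r → ℝ) := by
  funext j
  by_cases hj : j = i
  · subst hj
    simp [rv]
  · simp [rv, Pi.single_eq_of_ne hj]

theorem lat_M {N r : ℕ} (D : Red N r) : Lat D.M := by
  refine ⟨D.fin, Ker_span _ 1 one_ne_zero fun i => ?_⟩
  rw [one_smul, ← Ker_rv_single]
  exact D.int_mem _

theorem lat_ker {N r : ℕ} [NeZero N] (D : Red N r) : Lat D.ker := by
  refine ⟨fun R => (D.fin R).subset ?_, Ker_span _ (N : ℝ) (Nat.cast_ne_zero.2 (NeZero.ne N))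
    fun i => ?_⟩
  · rintro x ⟨hx, hR⟩
    obtain ⟨h, -⟩ := (D.mem_ker x).1 hx
    exact ⟨h, hR⟩
  · have hm : (Pi.single i (1 : ℝ) : Fin r → ℝ) ∈ D.M := by
      rw [← Ker_rv_single]
      exact D.int_mem _
    have h1 : (N : ℝ) • (Pi.single i (1 : ℝ) : Fin r → ℝ) =
        N • (Pi.single i (1 : ℝ) : Fin r → ℝ) := Nat.cast_smul_eq_nsmul ℝ N _
    rw [h1, D.mem_ker]
    refine ⟨AddSubgroup.nsmul_mem _ hm N, ?_⟩
    have h2 : (⟨N • (Pi.single i (1 : ℝ) : Fin r → ℝ), AddSubgroup.nsmul_mem _ hm N⟩ : D.M) =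
        N • (⟨Pi.single i (1 : ℝ), hm⟩ : D.M) := rfl
    rw [h2, map_nsmul]
    simp

end H97CP
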