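import Mathlib
import Pool.Agent.H97.CP.Defs

/-!
# Successive minima of a lattice
-/

set_option autoImplicit false

namespace H97CP

theorem Min_step {r : ℕ} (Λ : AddSubgroup (Fin r → ℝ)) (h : Lat Λ) (k : ℕ) (hk : k ≤ r) :
    ∃ w : Fin k → (Fin r → ℝ), (∀ i, w i ∈ Λ) ∧ LinearIndependent ℝ w ∧
      (∀ i, ∀ x ∈ Λ, ‖x‖ < ‖w i‖ → x ∈ Submodule.span ℝ (w '' {j | j < i})) := by
  induction k with
  | zero =>
      exact ⟨Fin.elim0, fun i => i.elim0, linearIndependent_empty_type, fun i => i.elim0⟩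
  | succ k ih =>
      obtain ⟨w, hwΛ, hwl, hwm⟩ := ih (by omega)
      have hW : Submodule.span ℝ (Set.range w) ≠ ⊤ := by
        intro htop
        have h1 := finrank_span_eq_card hwl
        rw [htop, finrank_top, Module.finrank_fin_fun, Fintype.card_fin] at h1
        omega
      obtain ⟨x0, hx0, hx0W⟩ : ∃ x0 ∈ Λ, x0 ∉ Submodule.span ℝ (Set.range w) := by
        by_contra hcon
        push Not at hcon
        apply hW
        rw [eq_top_iff, ← h.span]
        exact Submodule.span_le.mpr fun x hx => hcon x hx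
      have hfin : {x : Fin r → ℝ | (x ∈ Λ ∧ ‖x‖ ≤ ‖x0‖) ∧
          x ∉ Submodule.span ℝ (Set.range w)}.Finite :=
        (h.fin ‖x0‖).subset fun x hx => hx.1
      obtain ⟨v, hv, hvmin⟩ := Set.exists_min_image _ (fun x : Fin r → ℝ => ‖x‖) hfin
        ⟨x0, ⟨hx0, le_rfl⟩, hx0W⟩
      refine ⟨Fin.snoc w v, ?_, ?_, ?_⟩
      · intro i
        refine Fin.lastCases ?_ (fun j => ?_) i
        · rw [Fin.snoc_last]; exact hv.1.1
        · rw [Fin.snoc_castSucc]; exact hwΛ j
      · rw [linearIndependent_finSnoc]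
        exact ⟨hwl, hv.2⟩
      · intro i
        refine Fin.lastCases ?_ (fun j => ?_) i
        · intro x hx hlt
          rw [Fin.snoc_last] at hlt
          have hxW : x ∈ Submodule.span ℝ (Set.range w) := by
            by_contra hxW
            have := hvmin x ⟨⟨hx, hlt.le.trans hv.1.2⟩, hxW⟩
            exact absurd hlt (not_lt.mpr this)
          refine Submodule.span_mono ?_ hxW
          rintro _ ⟨j, rfl⟩
          exact ⟨j.castSucc, Fin.castSucc_lt_last j, Fin.snoc_castSucc (α := fun _ => Fin r → ℝ) v w j⟩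
        · intro x hx hlt
          rw [Fin.snoc_castSucc] at hlt
          refine Submodule.span_mono ?_ (hwm j x hx hlt)
          rintro _ ⟨l, hl, rfl⟩
          refine ⟨l.castSucc, ?_, Fin.snoc_castSucc (α := fun _ => Fin r → ℝ) v w l⟩
          exact Fin.castSucc_lt_castSucc_iff.mpr hl

theorem exists_min {r : ℕ} (Λ : AddSubgroup (Fin r → ℝ)) (h : Lat Λ) :
    ∃ w : Fin r → (Fin r → ℝ), (∀ k, w k ∈ Λ) ∧ LinearIndependent ℝ w ∧
      (∀ k, ∀ x ∈ Λ, ‖x‖ < ‖w k‖ → x ∈ Submodule.span ℝ (w '' {j | j < k})) ∧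
      ∀ j k, j ≤ k → ‖w j‖ ≤ ‖w k‖ := by
  obtain ⟨w, hw, hl, hm⟩ := Min_step Λ h r le_rfl
  refine ⟨w, hw, hl, hm, ?_⟩
  intro j k hjk
  rcases hjk.eq_or_lt with rfl | hlt
  · exact le_rfl
  · by_contra hcon
    push Not at hcon
    have h1 := hm j (w k) (hw k) hcon
    exact hl.notMem_span_image (s := {i | i < j}) (fun hk : k < j => absurd hk (not_lt.mpr hjk)) h1

end H97CP
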