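import Mathlib
import Pool.Agent.H97.CP.Min
import Pool.Agent.H97.CP.Flag
import Pool.Agent.H97.CP.Count
import Pool.Agent.H97.CP.Ker

/-!
# A generalised progression inside
-/

set_option autoImplicit false

namespace H97CP

open scoped Pointwise

theorem Gap_w_le {N r : ℕ} (D : Red N r) (w : Fin r → (Fin r → ℝ)) (hli : LinearIndependent ℝ w)
    (hmin : ∀ k, ∀ x ∈ D.M, ‖x‖ < ‖w k‖ → x ∈ Submodule.span ℝ (w '' {j | j < k})) (k : Fin r) :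
    ‖w k‖ ≤ 1 := by
  by_contra hcon
  push Not at hcon
  have he : ∀ i : Fin r, (Pi.single i (1 : ℝ) : Fin r → ℝ) ∈
      Submodule.span ℝ (w '' {j | j < k}) := by
    intro i
    apply hmin k
    · have h1 := D.int_mem (Pi.single i 1)
      have h2 : rv (Pi.single i 1) = (Pi.single i (1 : ℝ) : Fin r → ℝ) := by
        funext j
        by_cases h : j = i
        · subst h; simp [rv]
        · simp [rv, h]
      rwa [h2] at h1
    · refine lt_of_le_of_lt ?_ hcon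
      rw [pi_norm_le_iff_of_nonneg zero_le_one]
      intro j
      by_cases h : j = i
      · subst h; simp
      · simp [h]
  have hk : w k ∈ Submodule.span ℝ (w '' {j | j < k}) := by
    have h3 : ∑ i, (w k i) • (Pi.single i (1 : ℝ) : Fin r → ℝ) = w k := by
      funext j
      simp [Finset.sum_apply, Pi.single_apply]
    rw [← h3]
    exact Submodule.sum_mem _ fun i _ => Submodule.smul_mem _ _ (he i)
  exact hli.notMem_span_image (by simp) hk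

theorem Gap_coe {r : ℕ} (M : AddSubgroup (Fin r → ℝ)) (b : Fin r → M) (m : Fin r → ℤ) :
    ((∑ k, m k • b k : M) : Fin r → ℝ) = ∑ k, (m k : ℝ) • (b k : Fin r → ℝ) := by
  rw [AddSubgroup.val_finsetSum]
  refine Finset.sum_congr rfl fun k _ => ?_
  rw [AddSubgroup.coe_zsmul, Int.cast_smul_eq_zsmul]

theorem Gap_norm {r : ℕ} (M : AddSubgroup (Fin r → ℝ)) (b : Fin r → M)
    (hb : ∀ k, 0 < ‖(b k : Fin r → ℝ)‖) (m : Fin r → ℤ)
    (hm : ∀ k, |m k| ≤ ((⌊1 / ((r : ℝ) ^ 2 * ‖(b k : Fin r → ℝ)‖)⌋₊ : ℕ) : ℤ)) :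
    (r : ℝ) * ‖((∑ k, m k • b k : M) : Fin r → ℝ)‖ ≤ 1 := by
  rw [Gap_coe]
  rcases Nat.eq_zero_or_pos r with h0 | hr
  · subst h0; simp
  have hr' : (0 : ℝ) < r := by exact_mod_cast hr
  have h1 : ∀ k, ‖(m k : ℝ) • (b k : Fin r → ℝ)‖ ≤ 1 / (r : ℝ) ^ 2 := by
    intro k
    have h2 : |(m k : ℝ)| ≤ 1 / ((r : ℝ) ^ 2 * ‖(b k : Fin r → ℝ)‖) := by
      have h3 : (|m k| : ℝ) ≤ ((⌊1 / ((r : ℝ) ^ 2 * ‖(b k : Fin r → ℝ)‖)⌋₊ : ℕ) : ℝ) := by
        exact_mod_cast hm k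
      exact h3.trans (Nat.floor_le (by have := hb k; positivity))
    rw [norm_smul, Real.norm_eq_abs]
    calc |(m k : ℝ)| * ‖(b k : Fin r → ℝ)‖
        ≤ 1 / ((r : ℝ) ^ 2 * ‖(b k : Fin r → ℝ)‖) * ‖(b k : Fin r → ℝ)‖ :=
          mul_le_mul_of_nonneg_right h2 (hb k).le
      _ = 1 / (r : ℝ) ^ 2 := by
          have := hb k
          field_simp
  calc (r : ℝ) * ‖∑ k, (m k : ℝ) • (b k : Fin r → ℝ)‖
      ≤ (r : ℝ) * ∑ k : Fin r, 1 / (r : ℝ) ^ 2 :=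
        mul_le_mul_of_nonneg_left ((norm_sum_le _ _).trans (Finset.sum_le_sum fun k _ => h1 k)) hr'.le
    _ = 1 := by
        rw [Finset.sum_const, Finset.card_univ, Fintype.card_fin, nsmul_eq_mul]
        field_simp

theorem gap_red {N r : ℕ} [NeZero N] (D : Red N r) :
    ∃ (x : Fin r → ZMod N) (n : Fin r → ℕ),
      (∀ y ∈ gap x n, ∃ z : D.M, (r : ℝ) * ‖(z : Fin r → ℝ)‖ ≤ 1 ∧ D.ψ z = y) ∧
      (({y : ZMod N | ∃ z : D.M, ‖(z : Fin r → ℝ)‖ ≤ 1 ∧ D.ψ z = y}.ncard : ℕ) : ℝ) ≤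
        (10 * (r : ℝ) ^ 3) ^ r * (gap x n).ncard := by
  classical
  obtain ⟨w, hwM, hli, hmin, hmono⟩ := exists_min D.M (lat_M D)
  obtain ⟨b, t, hbM, hbn, hsum, htb, hker, hint⟩ := exists_flag D.M (lat_M D) w hwM hli hmono
  have hw1 : ∀ k, ‖w k‖ ≤ 1 := Gap_w_le D w hli hmin
  have hw0 : ∀ k, 0 < ‖w k‖ := fun k => norm_pos_iff.2 (hli.ne_zero k)
  have hb0 : ∀ k, 0 < ‖b k‖ := by
    intro k
    rw [norm_pos_iff]
    intro h
    have h1 := htb k k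
    rw [h, map_zero, if_pos rfl] at h1
    exact zero_ne_one h1
  obtain ⟨bb, hbb⟩ : ∃ bb : Fin r → D.M, ∀ k, (bb k : Fin r → ℝ) = b k :=
    ⟨fun k => ⟨b k, hbM k⟩, fun _ => rfl⟩
  obtain ⟨n, hn⟩ : ∃ n : Fin r → ℕ, ∀ k, n k = ⌊1 / ((r : ℝ) ^ 2 * ‖b k‖)⌋₊ :=
    ⟨fun k => ⌊1 / ((r : ℝ) ^ 2 * ‖b k‖)⌋₊, fun _ => rfl⟩
  have hnorm : ∀ m : Fin r → ℤ, (∀ k, |m k| ≤ (n k : ℤ)) →
      (r : ℝ) * ‖((∑ k, m k • bb k : D.M) : Fin r → ℝ)‖ ≤ 1 := by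
    intro m hm
    refine Gap_norm D.M bb (fun k => by rw [hbb]; exact hb0 k) m fun k => ?_
    rw [hbb, ← hn]
    exact hm k
  have hψ : ∀ m : Fin r → ℤ, D.ψ (∑ k, m k • bb k) = ∑ k, (m k : ZMod N) * D.ψ (bb k) := by
    intro m
    rw [map_sum]
    exact Finset.sum_congr rfl fun k _ => by rw [map_zsmul, zsmul_eq_mul]
  refine ⟨fun k => D.ψ (bb k), n, ?_, ?_⟩
  · rintro y ⟨m, hm, rfl⟩
    exact ⟨∑ k, m k • bb k, hnorm m hm, hψ m⟩
  -- the finite sets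
  obtain ⟨g, hg⟩ : ∃ g : (Fin r → ℕ) → D.M, ∀ m, g m = ∑ k, ((m k : ℕ) : ℤ) • bb k :=
    ⟨fun m => ∑ k, ((m k : ℕ) : ℤ) • bb k, fun _ => rfl⟩
  obtain ⟨Bx, hBx⟩ : ∃ Bx : Finset (Fin r → ℕ), Bx = Fintype.piFinset fun k => Finset.range (n k + 1) :=
    ⟨_, rfl⟩
  have hmemBx : ∀ m, m ∈ Bx ↔ ∀ k, m k ≤ n k := by
    intro m
    rw [hBx, Fintype.mem_piFinset]
    exact forall_congr' fun k => by rw [Finset.mem_range, Nat.lt_succ_iff]
  have hginj : Function.Injective g := by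
    intro m m' hmm
    have h1 : ∑ k, (((m k : ℕ) : ℤ) : ℝ) • b k = ∑ k, (((m' k : ℕ) : ℤ) : ℝ) • b k := by
      have h2 := congrArg (fun z : D.M => (z : Fin r → ℝ)) hmm
      simp only [hg, Gap_coe, hbb] at h2
      exact h2
    funext j
    have h3 := congrArg (t j) h1
    rw [map_sum, map_sum] at h3
    simp only [map_smul, htb, smul_eq_mul, mul_ite, mul_one, mul_zero, Finset.sum_ite_eq,
      Finset.mem_univ, if_true] at h3
    exact_mod_cast h3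
  have hBcard : (((Bx.image g).card : ℕ) : ℝ) = ∏ k, ((n k : ℝ) + 1) := by
    rw [Finset.card_image_of_injective _ hginj, hBx, Fintype.card_piFinset]
    push_cast
    exact Finset.prod_congr rfl fun k _ => by rw [Finset.card_range]; push_cast; rfl
  have hA : {z : D.M | ‖(z : Fin r → ℝ)‖ ≤ 1}.Finite := by
    refine Set.Finite.subset (Set.Finite.preimage Subtype.val_injective.injOn (D.fin 1)) ?_
    exact fun z hz => ⟨z.2, hz⟩
  obtain ⟨A, hAd⟩ : ∃ A : Finset D.M, ∀ z, z ∈ A ↔ ‖(z : Fin r → ℝ)‖ ≤ 1 :=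
    ⟨hA.toFinset, fun z => by rw [Set.Finite.mem_toFinset]; rfl⟩
  have hBnorm : ∀ z ∈ Bx.image g, ‖(z : Fin r → ℝ)‖ ≤ 1 := by
    intro z hz
    obtain ⟨m, hm, rfl⟩ := Finset.mem_image.1 hz
    rcases Nat.eq_zero_or_pos r with h0 | hr
    · subst h0
      have : ((g m : D.M) : Fin 0 → ℝ) = 0 := Subsingleton.elim _ _
      rw [this, norm_zero]
      exact zero_le_one
    · have hr1 : (1 : ℝ) ≤ r := by exact_mod_cast hr
      have h1 := hnorm (fun k => ((m k : ℕ) : ℤ)) (fun k => by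
        rw [abs_of_nonneg (Int.natCast_nonneg _)]
        exact_mod_cast (hmemBx m).1 hm k)
      rw [hg]
      have h2 : 0 ≤ ‖((∑ k, ((m k : ℕ) : ℤ) • bb k : D.M) : Fin r → ℝ)‖ := norm_nonneg _
      nlinarith
  have hsumcard : (((A + Bx.image g).card : ℕ) : ℝ) ≤ ∏ k, (2 * (2 * 2 / ‖w k‖ + 1)) := by
    refine le_trans ?_ (count_le D.M (lat_M D) w hli hmin hmono b t hbM hsum hker hint 2
      (by norm_num))
    have h1 : (A + Bx.image g).card = ((A + Bx.image g).image (fun z : D.M => (z : Fin r → ℝ))).card :=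
      (Finset.card_image_of_injective _ Subtype.val_injective).symm
    rw [h1, ← Set.ncard_coe_finset]
    have h2 : ((((A + Bx.image g).image (fun z : D.M => (z : Fin r → ℝ))) : Finset (Fin r → ℝ)) :
        Set (Fin r → ℝ)) ⊆ {x : Fin r → ℝ | x ∈ D.M ∧ ‖x‖ ≤ 2} := by
      intro x hx
      rw [Finset.mem_coe, Finset.mem_image] at hx
      obtain ⟨z, hz, rfl⟩ := hx
      obtain ⟨a, ha, c, hc, rfl⟩ := Finset.mem_add.1 hz
      refine ⟨(a + c).2, ?_⟩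
      have h3 := (hAd a).1 ha
      have h4 := hBnorm c hc
      have h5 : ‖((a + c : D.M) : Fin r → ℝ)‖ ≤ ‖(a : Fin r → ℝ)‖ + ‖(c : Fin r → ℝ)‖ := by
        rw [AddSubgroup.coe_add]
        exact norm_add_le _ _
      linarith
    exact_mod_cast Set.ncard_le_ncard h2 (D.fin 2)
  have hfac : ∀ k, 2 * (2 * 2 / ‖w k‖ + 1) ≤ (10 * (r : ℝ) ^ 3) * ((n k : ℝ) + 1) := by
    intro k
    have hr : 0 < r := by have := k.2; omega
    have hr' : (0 : ℝ) < r := by exact_mod_cast hr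
    have h0 := hw0 k
    have h1 : (1 : ℝ) ≤ 1 / ‖w k‖ := by rw [le_div_iff₀ h0]; linarith [hw1 k]
    have h2 : 2 * (2 * 2 / ‖w k‖ + 1) ≤ 10 / ‖w k‖ := by
      have e1 : 2 * (2 * 2 / ‖w k‖ + 1) = 8 * (1 / ‖w k‖) + 2 := by ring
      have e2 : 10 / ‖w k‖ = 10 * (1 / ‖w k‖) := by ring
      rw [e1, e2]; linarith
    have h3 : 1 / ((r : ℝ) ^ 3 * ‖w k‖) ≤ (n k : ℝ) + 1 := by
      rw [hn]
      refine le_trans ?_ (Nat.lt_floor_add_one _).le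
      apply one_div_le_one_div_of_le (by have := hb0 k; positivity)
      calc (r : ℝ) ^ 2 * ‖b k‖ ≤ (r : ℝ) ^ 2 * ((r : ℝ) * ‖w k‖) :=
            mul_le_mul_of_nonneg_left (hbn k) (by positivity)
        _ = (r : ℝ) ^ 3 * ‖w k‖ := by ring
    calc 2 * (2 * 2 / ‖w k‖ + 1) ≤ 10 / ‖w k‖ := h2
      _ = (10 * (r : ℝ) ^ 3) * (1 / ((r : ℝ) ^ 3 * ‖w k‖)) := by field_simp
      _ ≤ (10 * (r : ℝ) ^ 3) * ((n k : ℝ) + 1) :=
          mul_le_mul_of_nonneg_left h3 (by positivity)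
  have hK : (((A + Bx.image g).card : ℕ) : ℝ) ≤
      (10 * (r : ℝ) ^ 3) ^ r * (((Bx.image g).card : ℕ) : ℝ) := by
    refine hsumcard.trans ?_
    rw [hBcard]
    refine (Finset.prod_le_prod (fun k _ => by have := hw0 k; positivity)
      (fun k _ => hfac k)).trans ?_
    rw [Finset.prod_mul_distrib, Finset.prod_const, Finset.card_univ, Fintype.card_fin]
  have hBne : (Bx.image g).Nonempty :=
    ⟨g 0, Finset.mem_image_of_mem g ((hmemBx 0).2 fun k => Nat.zero_le _)⟩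
  obtain ⟨F, hFA, hFK, hcov⟩ := Finset.ruzsa_covering_add hBne hK
  have hsub : {y : ZMod N | ∃ z : D.M, ‖(z : Fin r → ℝ)‖ ≤ 1 ∧ D.ψ z = y} ⊆
      ⋃ f ∈ F, (fun u => D.ψ f + u) '' gap (fun k => D.ψ (bb k)) n := by
    rintro y ⟨z, hz, rfl⟩
    obtain ⟨f, hf, c, hc, rfl⟩ := Finset.mem_add.1 (hcov ((hAd z).2 hz))
    obtain ⟨u, hu, v, hv, rfl⟩ := Finset.mem_sub.1 hc
    obtain ⟨m, hm, rfl⟩ := Finset.mem_image.1 hu
    obtain ⟨m', hm', rfl⟩ := Finset.mem_image.1 hv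
    rw [Set.mem_iUnion₂]
    refine ⟨f, hf, D.ψ (g m - g m'), ?_, (map_add _ _ _).symm⟩
    refine ⟨fun k => ((m k : ℕ) : ℤ) - ((m' k : ℕ) : ℤ), fun k => ?_, ?_⟩
    · have h1 := (hmemBx m).1 hm k
      have h2 := (hmemBx m').1 hm' k
      show |((m k : ℕ) : ℤ) - ((m' k : ℕ) : ℤ)| ≤ (n k : ℤ)
      rw [abs_le]
      constructor <;> omega
    · rw [← hψ, hg, hg, ← Finset.sum_sub_distrib]
      congr 1
      exact Finset.sum_congr rfl fun k _ => (sub_zsmul _ _ _).symm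
  have hfinal : {y : ZMod N | ∃ z : D.M, ‖(z : Fin r → ℝ)‖ ≤ 1 ∧ D.ψ z = y}.ncard ≤
      F.card * (gap (fun k => D.ψ (bb k)) n).ncard := by
    calc {y : ZMod N | ∃ z : D.M, ‖(z : Fin r → ℝ)‖ ≤ 1 ∧ D.ψ z = y}.ncard
        ≤ (⋃ f ∈ F, (fun u => D.ψ f + u) '' gap (fun k => D.ψ (bb k)) n).ncard :=
          Set.ncard_le_ncard hsub (Set.toFinite _)
      _ ≤ ∑ f ∈ F, ((fun u => D.ψ f + u) '' gap (fun k => D.ψ (bb k)) n).ncard :=
          Finset.set_ncard_biUnion_le F _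
      _ ≤ ∑ f ∈ F, (gap (fun k => D.ψ (bb k)) n).ncard :=
          Finset.sum_le_sum fun f _ => Set.ncard_image_le (Set.toFinite _)
      _ = F.card * (gap (fun k => D.ψ (bb k)) n).ncard := by
          rw [Finset.sum_const, smul_eq_mul]
  calc (({y : ZMod N | ∃ z : D.M, ‖(z : Fin r → ℝ)‖ ≤ 1 ∧ D.ψ z = y}.ncard : ℕ) : ℝ)
      ≤ (F.card : ℝ) * ((gap (fun k => D.ψ (bb k)) n).ncard : ℝ) := by exact_mod_cast hfinal
    _ ≤ (10 * (r : ℝ) ^ 3) ^ r * ((gap (fun k => D.ψ (bb k)) n).ncard : ℝ) :=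
        mul_le_mul_of_nonneg_right hFK (Nat.cast_nonneg _)

end H97CP
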