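import Mathlib
import Pool.Agent.H97.CP.Defs
import Pool.Agent.H84.CP.Auer

/-!
# Coordinates with a cross-polytope inside and a cube outside

PROOF. `P = progr φ S` is finite and not empty; choose for `y ∈ P` an integer vector `z_y` with `rv z_y ∈ S`, `φ z_y = y`, and
let `T` be the finite set of the `rv z_y`, `V = span ℝ T`, `r = finrank V ≤ d`, `B` a basis of `V` indexed by `Fin r`. Among the
(finitely many) families `v : Fin r → T` choose one with `|B.det v|` largest; it is `≠ 0` since `T` contains a basis of `V`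
(`exists_linearIndependent`, `Module.Basis.isUnit_det`). So `v` is a basis of `V`; for `z ∈ T`, `z = ∑ x_j v_j`, one has
`B.det (Function.update v i z) = x_i B.det v` (multilinear, alternating), and so `|x_i| ≤ 1`.
Let `L : (Fin r → ℝ) →ₗ[ℝ] (Fin d → ℝ)`, `L x = ∑ x_i v_i`, injective. `M = {x | L x ∈ range rv}` (comap of the additive subgroup
`range rv`; `rv_add`, `rv_neg`), `ψ x = φ z` for the unique `z` with `rv z = L x` (`rv_injective`).
* `int_mem`: `L (rv v) = ∑ v_i v_i'` is the `rv` of an integer vector. * `fin`: `‖L x‖ ≤ C ‖x‖`, so the `z` with `rv z = L x` are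
bounded integer vectors, finitely many; `L`, `rv` injective.
* `y ∈ P`: the coordinates `x` of `rv z_y` have `‖x‖ ≤ 1`, `ψ x = y`.
* `r ‖x‖ ≤ 1` gives `∑ |x_i| ≤ 1`, so `L x = ∑ |x_i| (± v_i) + (1 - ∑ |x_i|) 0 ∈ S` (`S` is convex, symmetric, contains the `v_i` and
`0`), so `ψ x = φ z`, `rv z = L x ∈ S`, is in `P`.
If `r = 0` everything is trivial but still the same construction.
-/

set_option autoImplicit false

namespace H97CP

open Pool.H84.CP (auerbach)

/-- The embedding of the integer vectors in the real vectors. -/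
def RedEx_io (d : ℕ) : (Fin d → ℤ) →+ (Fin d → ℝ) where
  toFun m := rv m
  map_zero' := by funext i; simp [rv]
  map_add' a b := rv_add a b

theorem RedEx_io_inj (d : ℕ) : Function.Injective (RedEx_io d) := rv_injective

/-- The linear map `t ↦ ∑ t i • c i`. -/
noncomputable def RedEx_lin {d k : ℕ} (c : Fin k → (Fin d → ℝ)) :
    (Fin k → ℝ) →ₗ[ℝ] (Fin d → ℝ) where
  toFun t := ∑ i, t i • c i
  map_add' a b := by
    simp only [Pi.add_apply, add_smul, Finset.sum_add_distrib]
  map_smul' r a := by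
    simp only [Pi.smul_apply, smul_eq_mul, mul_smul, Finset.smul_sum, RingHom.id_apply]

theorem RedEx_lin_apply {d k : ℕ} (c : Fin k → (Fin d → ℝ)) (t : Fin k → ℝ) :
    RedEx_lin c t = ∑ i, t i • c i := rfl

theorem RedEx_lin_inj {d k : ℕ} (c : Fin k → (Fin d → ℝ)) (hc : LinearIndependent ℝ c) :
    Function.Injective (RedEx_lin c) := by
  rw [← LinearMap.ker_eq_bot, LinearMap.ker_eq_bot']
  intro t ht
  rw [RedEx_lin_apply] at ht
  have h := Fintype.linearIndependent_iff.1 hc (fun i => t i) ht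
  funext i
  exact h i

theorem RedEx_convex {d k : ℕ} (K : Set (Fin d → ℝ)) (hK : Convex ℝ K)
    (h0 : (0 : Fin d → ℝ) ∈ K)
    (hs : ∀ v ∈ K, -v ∈ K) (c : Fin k → (Fin d → ℝ)) (hc : ∀ i, c i ∈ K) (t : Fin k → ℝ)
    (ht : ∑ i, |t i| ≤ 1) : ∑ i, t i • c i ∈ K := by
  let w : Option (Fin k) → ℝ := fun o => o.elim (1 - ∑ i, |t i|) (fun i => |t i|)
  let z : Option (Fin k) → (Fin d → ℝ) := fun o => o.elim 0 (fun i => (SignType.sign (t i) : ℝ) • c i)
  have h := hK.sum_mem (t := (Finset.univ : Finset (Option (Fin k)))) (w := w) (z := z) (by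
      intro o _
      cases o with
      | none => simp only [w, Option.elim]; linarith
      | some i => simp only [w, Option.elim]; exact abs_nonneg _) (by
      rw [Fintype.sum_option]
      simp only [w, Option.elim]
      linarith) (by
      intro o _
      cases o with
      | none => simpa only [z, Option.elim] using h0
      | some i =>
        simp only [z, Option.elim]
        rcases lt_trichotomy (t i) 0 with h | h | h
        · rw [sign_neg h]
          simpa using hs _ (hc i)
        · rw [h, sign_zero]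
          simpa using h0
        · rw [sign_pos h]
          simpa using hc i)
  rw [Fintype.sum_option] at h
  simp only [w, z, Option.elim, smul_zero, zero_add, smul_smul] at h
  have e : ∀ i, |t i| * (SignType.sign (t i) : ℝ) = t i := fun i => abs_mul_sign (t i)
  simpa only [e] using h

theorem exists_red {N d : ℕ} [NeZero N] (φ : (Fin d → ℤ) →+ ZMod N) (S : Set (Fin d → ℝ))
    (hconv : Convex ℝ S) (hsym : ∀ x ∈ S, -x ∈ S) (hne : (progr φ S).Nonempty) :
    ∃ r : ℕ, r ≤ d ∧ ∃ D : Red N r,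
      (∀ y ∈ progr φ S, ∃ x : D.M, ‖(x : Fin r → ℝ)‖ ≤ 1 ∧ D.ψ x = y) ∧
      ∀ x : D.M, (r : ℝ) * ‖(x : Fin r → ℝ)‖ ≤ 1 → D.ψ x ∈ progr φ S := by
  classical
  have h0 : (0 : Fin d → ℝ) ∈ S := by
    obtain ⟨y, z, hz, -⟩ := hne
    have h2 := hconv hz (hsym _ hz) (a := 1 / 2) (b := 1 / 2) (by norm_num) (by norm_num)
      (by norm_num)
    simpa using h2
  have hs : ∀ a : ZMod N, ∃ n : Fin d → ℤ, a ∈ progr φ S → (RedEx_io d n ∈ S ∧ φ n = a) := by
    intro a
    by_cases ha : a ∈ progr φ S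
    · obtain ⟨n, h1, h2⟩ := ha
      exact ⟨n, fun _ => ⟨h1, h2⟩⟩
    · exact ⟨0, fun h => absurd h ha⟩
  choose s hs using hs
  have hfinP : (progr φ S).Finite := Set.toFinite _
  obtain ⟨k, c, hkd, hcS, hli, hrep⟩ := auerbach (hfinP.toFinset.image (fun a => RedEx_io d (s a)))
  have hcS' : ∀ i, ∃ a ∈ progr φ S, RedEx_io d (s a) = c i := by
    intro i
    have := hcS i
    rw [Finset.mem_image] at this
    obtain ⟨a, ha, h⟩ := this
    exact ⟨a, (Set.Finite.mem_toFinset _).1 ha, h⟩
  let M : AddSubgroup (Fin k → ℝ) :=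
    ((RedEx_io d).range).comap (RedEx_lin c).toAddMonoidHom
  have hM : ∀ t : Fin k → ℝ, t ∈ M ↔ ∃ m : Fin d → ℤ, RedEx_io d m = RedEx_lin c t := by
    intro t
    simp only [M, AddSubgroup.mem_comap, AddMonoidHom.mem_range]
    rfl
  choose m hm using fun t : M => (hM t).1 t.2
  let Φ : M →+ ZMod N := AddMonoidHom.mk' (fun t => φ (m t)) (by
    intro a b
    rw [← map_add]
    congr 1
    apply RedEx_io_inj d
    rw [hm, map_add, hm, hm, AddSubgroup.coe_add, map_add])
  have hΦ : ∀ t : M, Φ t = φ (m t) := fun _ => rfl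
  have hfin : ∀ R : ℝ, {x : Fin k → ℝ | x ∈ M ∧ ‖x‖ ≤ R}.Finite := by
    intro R
    let B : ℤ := ⌈‖LinearMap.toContinuousLinearMap (RedEx_lin c)‖ * R⌉
    have hF : (Set.Icc (fun _ => -B : Fin d → ℤ) (fun _ => B)).Finite := Set.finite_Icc _ _
    have hF2 := (hF.image (RedEx_io d)).preimage (f := RedEx_lin c)
      (RedEx_lin_inj c hli).injOn
    apply hF2.subset
    rintro x ⟨hxM, hxR⟩
    obtain ⟨n, hn⟩ := (hM x).1 hxM
    refine ⟨n, ?_, hn⟩
    have hb : ∀ j, |(n j : ℝ)| ≤ B := by
      intro j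
      have h1 : (n j : ℝ) = RedEx_lin c x j := by
        have := congrFun hn j
        exact this
      rw [h1, ← Real.norm_eq_abs]
      have h2 := norm_le_pi_norm (RedEx_lin c x) j
      have h3 := (LinearMap.toContinuousLinearMap (RedEx_lin c)).le_opNorm x
      have h4 : ‖LinearMap.toContinuousLinearMap (RedEx_lin c)‖ * ‖x‖
          ≤ ‖LinearMap.toContinuousLinearMap (RedEx_lin c)‖ * R :=
        mul_le_mul_of_nonneg_left hxR (norm_nonneg _)
      have h5 : ‖LinearMap.toContinuousLinearMap (RedEx_lin c)‖ * R ≤ (B : ℝ) := Int.le_ceil _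
      have h6 : ‖(LinearMap.toContinuousLinearMap (RedEx_lin c)) x‖ = ‖RedEx_lin c x‖ := rfl
      rw [h6] at h3
      linarith
    rw [Set.mem_Icc]
    constructor
    · intro j
      have := (abs_le.1 (hb j)).1
      show -B ≤ n j
      exact_mod_cast this
    · intro j
      have := (abs_le.1 (hb j)).2
      show n j ≤ B
      exact_mod_cast this
  have hZ : ∀ v : Fin k → ℤ, rv v ∈ M := by
    intro v
    rw [hM]
    choose a ha hac using hcS'
    refine ⟨∑ i, v i • s (a i), ?_⟩
    rw [map_sum, RedEx_lin_apply]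
    refine Finset.sum_congr rfl fun i _ => ?_
    rw [map_zsmul, hac, rv, Int.cast_smul_eq_zsmul]
  refine ⟨k, hkd, ⟨M, Φ, hZ, hfin⟩, ?_, ?_⟩
  · intro a ha
    obtain ⟨t, ht1, ht2⟩ := hrep (RedEx_io d (s a)) (Finset.mem_image_of_mem _
      ((Set.Finite.mem_toFinset _).2 ha))
    have e : RedEx_lin c t = RedEx_io d (s a) := by
      rw [ht2, RedEx_lin_apply]
    refine ⟨⟨t, (hM _).2 ⟨s a, e.symm⟩⟩, ?_, ?_⟩
    · rw [pi_norm_le_iff_of_nonneg zero_le_one]
      intro i
      rw [Real.norm_eq_abs]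
      exact ht1 i
    · have h1 : m ⟨t, (hM _).2 ⟨s a, e.symm⟩⟩ = s a := by
        apply RedEx_io_inj d
        rw [hm]
        exact e
      show φ (m ⟨t, (hM _).2 ⟨s a, e.symm⟩⟩) = a
      rw [h1]
      exact (hs a ha).2
  · intro t ht
    refine ⟨m t, ?_, rfl⟩
    have h3 : rv (m t) = RedEx_io d (m t) := rfl
    rw [h3, hm, RedEx_lin_apply]
    apply RedEx_convex S hconv h0 hsym c
    · intro i
      obtain ⟨a, ha, hac⟩ := hcS' i
      rw [← hac]
      exact (hs a ha).1
    · calc ∑ i, |(t : Fin k → ℝ) i|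
          ≤ ∑ _i : Fin k, ‖(t : Fin k → ℝ)‖ := by
            apply Finset.sum_le_sum
            intro i _
            have h4 := norm_le_pi_norm (t : Fin k → ℝ) i
            rw [Real.norm_eq_abs] at h4
            exact h4
        _ = k * ‖(t : Fin k → ℝ)‖ := by
            rw [Finset.sum_const, Finset.card_univ, Fintype.card_fin, nsmul_eq_mul]
        _ ≤ 1 := ht

end H97CP
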