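import Mathlib
import Pool.Agent.H97.CP.Forms
import Pool.Agent.H97.CP.RedEx
import Pool.Agent.H97.CP.Gap
import Pool.Agent.H97.CP.Conv

/-!
# From Bohr sets to generalised arithmetic progressions
-/

set_option autoImplicit false

namespace H97CP

open Pool.Agent.H33.QB

theorem FinalA_le (a L : ℝ) (hL : 0 ≤ L) (K : ℕ) (h : a ≤ 2 ^ K) :
    a * L + 1 ≤ (L + 2) ^ (K + 1) := by
  have h1 : (1 : ℝ) ≤ 2 ^ K := one_le_pow₀ (by norm_num)
  have h2 : a * L ≤ 2 ^ K * L := mul_le_mul_of_nonneg_right h hL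
  have h3 : (2 : ℝ) ^ K ≤ (L + 2) ^ K := pow_le_pow_left₀ (by norm_num) (by linarith) K
  have h4 : (2 : ℝ) ^ K * (L + 2) ≤ (L + 2) ^ K * (L + 2) :=
    mul_le_mul_of_nonneg_right h3 (by linarith)
  rw [pow_succ]
  nlinarith

theorem FinalA_exp (L : ℝ) (hL : 0 ≤ L) (m : ℕ) :
    (L + 2) ^ m = Real.exp ((m : ℝ) * Real.log (L + 2)) := by
  rw [Real.exp_nat_mul, Real.exp_log (by linarith)]

/-- the numerical part -/
theorem FinalA_num (C c : ℝ) (hC : 0 < C) (hc : 0 < c) (K K' : ℕ) (hK : 1 / c ≤ 2 ^ K)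
    (hK' : C ≤ 2 ^ K') (L ε : ℝ) (hL : 1 / 2 ≤ L) (hε : 0 < ε) (hε' : c / L ≤ ε)
    (k r : ℕ) (hk : (k : ℝ) ≤ C * L) (hr : (r : ℝ) ≤ C * L + 1) :
    (10 * (r : ℝ) ^ 3) ^ r * (1 / ε + 1) ^ k ≤
      Real.exp (((C + 2) + C * (K + 1) + (C + 2) * (4 + 3 * (K' + 1))) * L
        * Real.log (L + 2)) := by
  have hL0 : 0 < L := by linarith
  have hlog : 0 ≤ Real.log (L + 2) := Real.log_nonneg (by linarith)
  -- the Bohr part
  have a1 : 1 / ε ≤ 1 / c * L := by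
    rw [div_mul_eq_mul_div, one_mul, div_le_div_iff₀ hε hc]
    rw [div_le_iff₀ hL0] at hε'
    linarith
  have a2 : 1 / ε + 1 ≤ (L + 2) ^ (K + 1) :=
    le_trans (by linarith) (FinalA_le (1 / c) L hL0.le K hK)
  have a3 : (1 / ε + 1) ^ k ≤ Real.exp ((C * (K + 1)) * L * Real.log (L + 2)) := by
    refine (pow_le_pow_left₀ (by positivity) a2 k).trans ?_
    rw [← pow_mul, FinalA_exp L hL0.le]
    apply Real.exp_le_exp.2
    apply mul_le_mul_of_nonneg_right _ hlog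
    push_cast
    have : (0 : ℝ) ≤ (K : ℝ) + 1 := by positivity
    nlinarith
  -- the other part
  have b1 : (r : ℝ) ≤ (L + 2) ^ (K' + 1) := hr.trans (FinalA_le C L hL0.le K' hK')
  have b2 : (10 : ℝ) ≤ (L + 2) ^ 4 := by
    have : (2 : ℝ) ^ 4 ≤ (L + 2) ^ 4 := pow_le_pow_left₀ (by norm_num) (by linarith) 4
    linarith [(by norm_num : (2 : ℝ) ^ 4 = 16)]
  have b3 : 10 * (r : ℝ) ^ 3 ≤ (L + 2) ^ (4 + 3 * (K' + 1)) := by
    rw [pow_add, mul_comm 3 (K' + 1), pow_mul]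
    exact mul_le_mul b2 (pow_le_pow_left₀ (by positivity) b1 3) (by positivity) (by positivity)
  have b4 : (10 * (r : ℝ) ^ 3) ^ r ≤
      Real.exp (((C + 2) * (4 + 3 * (K' + 1))) * L * Real.log (L + 2)) := by
    refine (pow_le_pow_left₀ (by positivity) b3 r).trans ?_
    rw [← pow_mul, FinalA_exp L hL0.le]
    apply Real.exp_le_exp.2
    apply mul_le_mul_of_nonneg_right _ hlog
    push_cast
    have h1 : (0 : ℝ) ≤ 4 + 3 * ((K' : ℝ) + 1) := by positivity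
    have h2 : (r : ℝ) ≤ (C + 2) * L := by linarith
    nlinarith
  refine (mul_le_mul b4 a3 (by positivity) (Real.exp_pos _).le).trans ?_
  rw [← Real.exp_add]
  apply Real.exp_le_exp.2
  have h3 : 0 ≤ (C + 2) * L * Real.log (L + 2) := by positivity
  nlinarith

theorem gapForm_of_bohrForm (h : BohrForm) : GapForm := by
  obtain ⟨C, hC, c, hc, h⟩ := h
  obtain ⟨K, hK⟩ := pow_unbounded_of_one_lt (1 / c) (one_lt_two : (1 : ℝ) < 2)
  obtain ⟨K', hK'⟩ := pow_unbounded_of_one_lt C (one_lt_two : (1 : ℝ) < 2)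
  set C' : ℝ := (C + 2) + C * (K + 1) + (C + 2) * (4 + 3 * (K' + 1)) with hC'
  have hC2 : C + 2 ≤ C' := by
    have h1 : 0 ≤ C * ((K : ℝ) + 1) := by positivity
    have h2 : 0 ≤ (C + 2) * (4 + 3 * ((K' : ℝ) + 1)) := by positivity
    linarith
  refine ⟨C', by linarith, ?_⟩
  intro N hN A hA hA2
  have : NeZero N := ⟨hN.ne'⟩
  obtain ⟨Γ, ε, hε, hΓ, hε', hrep⟩ := h N hN A hA hA2
  set L : ℝ := Real.log ((N : ℝ) / (A.card : ℝ)) with hLdef
  have hA0 : (0 : ℝ) < A.card := by exact_mod_cast hA.card_pos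
  have hN0 : (0 : ℝ) < N := by exact_mod_cast hN
  have hL : 1 / 2 ≤ L := by
    have h1 : (2 : ℝ) ≤ (N : ℝ) / (A.card : ℝ) := by
      rw [le_div_iff₀ hA0]
      rw [div_le_iff₀ hN0] at hA2
      linarith
    have h2 : Real.log 2 ≤ L := Real.log_le_log (by norm_num) h1
    linarith [Real.log_two_gt_d9]
  obtain ⟨φ, S, hconv, hsym, hS⟩ := bohr_progr Γ ε
  have hne : (progr φ S).Nonempty := by
    rw [hS]
    refine ⟨0, ?_⟩
    intro γ _
    simp [nd, hε.le]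
  obtain ⟨r, hr, D, hD1, hD2⟩ := exists_red φ S hconv hsym hne
  obtain ⟨x, n, hg1, hg2⟩ := gap_red D
  have hr' : (r : ℝ) ≤ C * L + 1 := by
    have h1 : (r : ℝ) ≤ (Γ.card : ℝ) + 1 := by exact_mod_cast hr
    linarith
  refine ⟨r, x, n, ?_, ?_, ?_⟩
  · have h1 : C * L + 1 ≤ (C + 2) * L := by linarith
    have h2 : (C + 2) * L ≤ C' * L := mul_le_mul_of_nonneg_right hC2 (by linarith)
    linarith
  · have h1 : (N : ℝ) ≤ (bohr Γ ε).ncard * (1 / ε + 1) ^ Γ.card := bohr_card Γ ε hε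
    have h2 : ((bohr Γ ε).ncard : ℝ) ≤ (10 * (r : ℝ) ^ 3) ^ r * (gap x n).ncard := by
      refine le_trans ?_ hg2
      rw [← hS]
      exact_mod_cast Set.ncard_le_ncard hD1 (Set.toFinite _)
    have h3 : (N : ℝ) ≤ (gap x n).ncard *
        ((10 * (r : ℝ) ^ 3) ^ r * (1 / ε + 1) ^ Γ.card) := by
      refine h1.trans ?_
      have h4 : (0 : ℝ) ≤ (1 / ε + 1) ^ Γ.card := by positivity
      calc ((bohr Γ ε).ncard : ℝ) * (1 / ε + 1) ^ Γ.card
          ≤ ((10 * (r : ℝ) ^ 3) ^ r * (gap x n).ncard) * (1 / ε + 1) ^ Γ.card :=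
            mul_le_mul_of_nonneg_right h2 h4
        _ = _ := by ring
    have h5 := FinalA_num C c hC hc K K' hK.le hK'.le L ε hL hε hε' Γ.card r hΓ hr'
    rw [← hC'] at h5
    have h6 : (N : ℝ) ≤ (gap x n).ncard * Real.exp (C' * L * Real.log (L + 2)) :=
      h3.trans (mul_le_mul_of_nonneg_left h5 (by positivity))
    rw [Real.exp_neg, ← div_eq_mul_inv, div_le_iff₀ (Real.exp_pos _)]
    exact h6
  · intro y hy
    obtain ⟨z, hz1, hz2⟩ := hg1 y hy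
    have h1 := hD2 z hz1
    rw [hz2, hS] at h1
    exact hrep y h1

end H97CP
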